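import Pool.Agent.Lib.MP_716191_lc.Instance

/-!
Edit distance with common extension and internal pattern matching queries: a quadratic lower bound
for randomized algorithms.
-/

namespace Pool.Agent.Results.MP_716191_lc.PillarLowerBound

open Pool.Agent.Lib.MP_716191_lc
open scoped ENNReal

/-- The number of leading pairs `(i, j)` of `L` with `x i = y j`. -/
def matchLen {n : ℕ} (x y : Fin n → ℕ) (L : List (Fin n × Fin n)) : ℕ :=
  (L.takeWhile (fun p => decide (x p.1 = y p.2))).length

/-- The fragments of length `l` of `x` at position `a` and of `y` at position `b` exist and are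
equal. -/
def FragEq {n : ℕ} (x y : Fin n → ℕ) (a b l : ℕ) : Prop :=
  ∀ s < l, ∃ (ha : a + s < n) (hb : b + s < n), x ⟨a + s, ha⟩ = y ⟨b + s, hb⟩

/-- Queries about the relation between `x` and `y`. -/
inductive Query (n : ℕ) : Type
  /-- at which pair of the list is the first mismatch? -/
  | ext (L : List (Fin n × Fin n)) : Query n
  /-- occurrences of the fragment of `x` of length `l` at `i` in the fragment of `y` of length
  `l'` at `j`, where `l' < 2 l` -/
  | occ (i l j l' : ℕ) : Query n
  /-- occurrences of the fragment of `y` of length `l` at `j` in the fragment of `x` of length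
  `l'` at `i`, where `l' < 2 l` -/
  | occ' (i l j l' : ℕ) : Query n

open Classical in
/-- The answer to a query. -/
noncomputable def Query.answer {n : ℕ} (x y : Fin n → ℕ) : Query n → Finset ℕ
  | .ext L => {matchLen x y L}
  | .occ i l j l' => (Finset.range (l' + 1)).filter
      (fun t => l' < 2 * l ∧ t + l ≤ l' ∧ FragEq x y i (j + t) l)
  | .occ' i l j l' => (Finset.range (l' + 1)).filter
      (fun t => l' < 2 * l ∧ t + l ≤ l' ∧ FragEq x y (i + t) j l)

/-- Adaptive algorithms: either output a number, or ask a query and continue with its answer. -/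
inductive Algo (n : ℕ) : Type
  | output (d : ℕ) : Algo n
  | ask (Q : Query n) (next : Finset ℕ → Algo n) : Algo n

/-- The output on the pair `x`, `y`. -/
noncomputable def Algo.run {n : ℕ} (x y : Fin n → ℕ) : Algo n → ℕ
  | .output d => d
  | .ask Q next => (next (Q.answer x y)).run x y

/-- The number of queries asked on the pair `x`, `y`. -/
noncomputable def Algo.queries {n : ℕ} (x y : Fin n → ℕ) : Algo n → ℕ
  | .output _ => 0
  | .ask Q next => (next (Q.answer x y)).queries x y + 1

/-- The pair (if any) on which the answer of the query hinges. -/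
def Query.touched {n : ℕ} (x y : Fin n → ℕ) : Query n → Option (ℕ × ℕ)
  | .ext L => (L[matchLen x y L]?).map (fun p => ((p.1 : ℕ), (p.2 : ℕ)))
  | .occ i l j _ => if l = 1 then some (i, j) else none
  | .occ' i l j _ => if l = 1 then some (i, j) else none

/-- The pairs on which the run hinges. -/
noncomputable def touched {n : ℕ} (x y : Fin n → ℕ) : Algo n → List (ℕ × ℕ)
  | .output _ => []
  | .ask Q next => (Q.touched x y).toList ++ touched x y (next (Q.answer x y))

theorem touched_length {n : ℕ} (x y : Fin n → ℕ) (t : Algo n) :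
    (touched x y t).length ≤ t.queries x y := by
  induction t with
  | output d => simp [touched, Algo.queries]
  | ask Q next ih =>
    simp only [touched, Algo.queries, List.length_append]
    have h1 := ih (Q.answer x y)
    have h2 : (Q.touched x y).toList.length ≤ 1 := by
      cases Q.touched x y <;> simp
    omega

theorem base_mismatch {n m : ℕ} (h : 5 * m ≤ n) {c : Fin n × Fin n} (hc : c ∈ cand n m) :
    ¬ (baseX n c.1 = baseY n m c.2) := by
  have hc' := mem_cand.mp hc
  simp only [baseX, baseY]
  have h1 := c.1.2
  have h2 := c.2.2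
  split_ifs <;> omega

theorem matchLen_hidden {n m : ℕ} (h : 5 * m ≤ n) {c : Fin n × Fin n} (hc : c ∈ cand n m)
    (L : List (Fin n × Fin n))
    (hL : ((c.1 : ℕ), (c.2 : ℕ)) ∉
      ((L[matchLen (baseX n) (baseY n m) L]?).map (fun p => ((p.1 : ℕ), (p.2 : ℕ)))).toList) :
    matchLen (baseX n) (hiddenY n m c) L = matchLen (baseX n) (baseY n m) L := by
  induction L with
  | nil => rfl
  | cons p L ih =>
    have hbase := base_mismatch h hc
    by_cases hp : baseX n p.1 = baseY n m p.2
    · have hpc : p ≠ c := by rintro rfl; exact hbase hp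
      have hp' := (hidden_match h hc p hpc).mpr hp
      have e1 : matchLen (baseX n) (baseY n m) (p :: L)
          = matchLen (baseX n) (baseY n m) L + 1 := by
        simp [matchLen, hp]
      have e2 : matchLen (baseX n) (hiddenY n m c) (p :: L)
          = matchLen (baseX n) (hiddenY n m c) L + 1 := by
        simp [matchLen, hp']
      rw [e1, List.getElem?_cons_succ] at hL
      rw [e1, e2, ih hL]
    · have e1 : matchLen (baseX n) (baseY n m) (p :: L) = 0 := by
        simp [matchLen, hp]
      rw [e1] at hL
      simp only [List.getElem?_cons_zero, Option.map_some, Option.toList_some,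
        List.mem_singleton] at hL
      have hpc : p ≠ c := by rintro rfl; exact hL rfl
      have hp' : ¬ (baseX n p.1 = hiddenY n m c p.2) := fun e =>
        hp ((hidden_match h hc p hpc).mp e)
      have e2 : matchLen (baseX n) (hiddenY n m c) (p :: L) = 0 := by
        simp [matchLen, hp']
      rw [e1, e2]

theorem base_diag {n m : ℕ} (h : 5 * m ≤ n) {a b : ℕ} (ha : a < n) (hb : b < n)
    (e : baseX n ⟨a, ha⟩ = baseY n m ⟨b, hb⟩) : a = b ∨ b = a + 2 * m := by
  simp only [baseX, baseY] at e
  split_ifs at e <;> omega

theorem fragEq_hidden {n m : ℕ} (h : 5 * m ≤ n) {c : Fin n × Fin n} (hc : c ∈ cand n m)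
    (a b l : ℕ) (hl : l = 1 → ¬ (a = c.1 ∧ b = c.2)) :
    FragEq (baseX n) (hiddenY n m c) a b l ↔ FragEq (baseX n) (baseY n m) a b l := by
  have hc' := mem_cand.mp hc
  have hc1 := c.1.2
  have hc2 := c.2.2
  by_cases hin : ∃ s < l, a + s = c.1 ∧ b + s = c.2
  · obtain ⟨s, hs, h1, h2⟩ := hin
    constructor
    · intro hf
      exfalso
      have hl1 : l ≠ 1 := by
        intro e
        subst e
        have : s = 0 := by omega
        subst this
        exact hl rfl ⟨by omega, by omega⟩
      -- a neighbour of the planted pair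
      obtain ⟨s', hs', hne⟩ : ∃ s' < l, (s' = s + 1 ∨ s = s' + 1) := by
        rcases Nat.lt_or_ge (s + 1) l with h3 | h3
        · exact ⟨s + 1, h3, Or.inl rfl⟩
        · exact ⟨s - 1, by omega, Or.inr (by omega)⟩
      obtain ⟨ha, hb, e⟩ := hf s' hs'
      have hpc : ((⟨a + s', ha⟩, ⟨b + s', hb⟩) : Fin n × Fin n) ≠ c := by
        intro e'
        have := congrArg (fun q : Fin n × Fin n => (q.1 : ℕ)) e'
        simp only at this
        omega
      have e2 := (hidden_match h hc _ hpc).mp e
      have := base_diag h ha hb e2
      omega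
    · intro hf
      exfalso
      obtain ⟨ha, hb, e⟩ := hf s hs
      have hpc : ((⟨a + s, ha⟩, ⟨b + s, hb⟩) : Fin n × Fin n) = c := by
        ext
        · simpa using h1
        · simpa using h2
      have := base_mismatch h hc
      rw [← hpc] at this
      exact this e
  · push Not at hin
    constructor
    · intro hf s hs
      obtain ⟨ha, hb, e⟩ := hf s hs
      refine ⟨ha, hb, ?_⟩
      have hpc : ((⟨a + s, ha⟩, ⟨b + s, hb⟩) : Fin n × Fin n) ≠ c := by
        intro e'
        have e1 := congrArg (fun q : Fin n × Fin n => (q.1 : ℕ)) e'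
        have e2 := congrArg (fun q : Fin n × Fin n => (q.2 : ℕ)) e'
        exact hin s hs e1 e2
      exact (hidden_match h hc _ hpc).mp e
    · intro hf s hs
      obtain ⟨ha, hb, e⟩ := hf s hs
      refine ⟨ha, hb, ?_⟩
      have hpc : ((⟨a + s, ha⟩, ⟨b + s, hb⟩) : Fin n × Fin n) ≠ c := by
        intro e'
        have e1 := congrArg (fun q : Fin n × Fin n => (q.1 : ℕ)) e'
        have e2 := congrArg (fun q : Fin n × Fin n => (q.2 : ℕ)) e'
        exact hin s hs e1 e2
      exact (hidden_match h hc _ hpc).mpr e

theorem answer_hidden {n m : ℕ} (h : 5 * m ≤ n) {c : Fin n × Fin n} (hc : c ∈ cand n m)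
    (Q : Query n)
    (hQ : ((c.1 : ℕ), (c.2 : ℕ)) ∉ (Q.touched (baseX n) (baseY n m)).toList) :
    Q.answer (baseX n) (hiddenY n m c) = Q.answer (baseX n) (baseY n m) := by
  cases Q with
  | ext L =>
    simp only [Query.answer]
    rw [matchLen_hidden h hc L hQ]
  | occ i l j l' =>
    simp only [Query.answer]
    ext t
    simp only [Finset.mem_filter, Finset.mem_range]
    constructor
    · rintro ⟨h1, h2, h3, h4⟩
      refine ⟨h1, h2, h3, (fragEq_hidden h hc _ _ _ ?_).mp h4⟩
      rintro rfl ⟨e1, e2⟩
      apply hQ
      have : t = 0 := by omega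
      subst this
      simp [Query.touched, e1, ← e2]
    · rintro ⟨h1, h2, h3, h4⟩
      refine ⟨h1, h2, h3, (fragEq_hidden h hc _ _ _ ?_).mpr h4⟩
      rintro rfl ⟨e1, e2⟩
      apply hQ
      have : t = 0 := by omega
      subst this
      simp [Query.touched, e1, ← e2]
  | occ' i l j l' =>
    simp only [Query.answer]
    ext t
    simp only [Finset.mem_filter, Finset.mem_range]
    constructor
    · rintro ⟨h1, h2, h3, h4⟩
      refine ⟨h1, h2, h3, (fragEq_hidden h hc _ _ _ ?_).mp h4⟩
      rintro rfl ⟨e1, e2⟩
      apply hQ
      have : t = 0 := by omega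
      subst this
      simp [Query.touched, ← e1, e2]
    · rintro ⟨h1, h2, h3, h4⟩
      refine ⟨h1, h2, h3, (fragEq_hidden h hc _ _ _ ?_).mpr h4⟩
      rintro rfl ⟨e1, e2⟩
      apply hQ
      have : t = 0 := by omega
      subst this
      simp [Query.touched, ← e1, e2]

theorem run_hidden {n m : ℕ} (h : 5 * m ≤ n) {c : Fin n × Fin n} (hc : c ∈ cand n m)
    (t : Algo n) (ht : ((c.1 : ℕ), (c.2 : ℕ)) ∉ touched (baseX n) (baseY n m) t) :
    t.run (baseX n) (hiddenY n m c) = t.run (baseX n) (baseY n m) := by
  induction t with
  | output d => rfl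
  | ask Q next ih =>
    simp only [touched, List.mem_append, not_or] at ht
    simp only [Algo.run]
    rw [answer_hidden h hc Q ht.1]
    exact ih _ ht.2

theorem ker_eq_bot {n : ℕ} {y : Fin n → ℕ} (h : Function.Injective y) : Setoid.ker y = ⊥ := by
  ext a b
  simp only [Setoid.ker_def]
  exact ⟨fun e => h e, fun e => by
    have : a = b := e
    rw [this]⟩

/-- **Theorem.** Consider randomized algorithms for the edit distance problem that are given, for
free, the whole string `x` and the equality pattern of the string `y` (hence the answers of all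
queries inside `x` and all queries inside `y`), and that access the relation between `x` and `y`
by adaptive queries of two kinds: first mismatch queries (given a list of pairs of positions
`(i, j)`, the answer is the number of leading pairs with `x i = y j`; these comprise longest common
extensions in both directions, comparisons of symbols, of substrings and of subsequences) and
internal pattern matching queries in both directions.  If for some `k ≤ n` such an algorithm
computes `d(x, y)` with error probability at most `ε` for all pairs of strings of length `n` with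
`d(x, y) ≤ k`, then on some such pair its expected number of queries is at least
`(1 - 2 ε) ⌊k / 5⌋ ^ 2`. -/
theorem result {Ω : Type*} (p : PMF Ω) (n k : ℕ) (hk : k ≤ n) (ε : ℝ≥0∞)
    (A : Ω → (Fin n → ℕ) → Setoid (Fin n) → Algo n)
    (hA : ∀ x y : Fin n → ℕ, editDist (List.ofFn x) (List.ofFn y) ≤ k →
      p.toOuterMeasure {ω | (A ω x (Setoid.ker y)).run x y ≠
        editDist (List.ofFn x) (List.ofFn y)} ≤ ε) :
    ∃ x y : Fin n → ℕ, editDist (List.ofFn x) (List.ofFn y) ≤ k ∧
      (1 - 2 * ε) * ((k / 5 : ℕ) : ℝ≥0∞) ^ 2 ≤
        ∑' ω, p ω * ((A ω x (Setoid.ker y)).queries x y : ℝ≥0∞) := by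
  classical
  set m := k / 5 with hm
  have h5 : 5 * m ≤ n := by omega
  have h5k : 5 * m ≤ k := by omega
  refine ⟨baseX n, baseY n m, (editDist_base_le h5).trans h5k, ?_⟩
  have kb : Setoid.ker (baseY n m) = ⊥ := ker_eq_bot (baseY_injective h5)
  have hb := hA (baseX n) (baseY n m) ((editDist_base_le h5).trans h5k)
  rw [kb] at hb
  rw [kb]
  set t : Ω → Algo n := fun ω => A ω (baseX n) ⊥ with ht
  set tch : Ω → List (ℕ × ℕ) := fun ω => touched (baseX n) (baseY n m) (t ω) with htch
  -- for each candidate
  have key : ∀ c ∈ cand n m,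
      1 - 2 * ε ≤ ∑' ω, if ((c.1 : ℕ), (c.2 : ℕ)) ∈ tch ω then p ω else 0 := by
    intro c hc
    have kc : Setoid.ker (hiddenY n m c) = ⊥ := ker_eq_bot (hiddenY_injective h5 hc)
    have hd := editDist_hidden h5 hc
    have hc' := hA (baseX n) (hiddenY n m c) (hd.trans (by omega))
    rw [kc] at hc'
    have hmpos : 0 < m := by
      have := mem_cand.mp hc
      omega
    have hne : editDist (List.ofFn (baseX n)) (List.ofFn (hiddenY n m c)) ≠
        editDist (List.ofFn (baseX n)) (List.ofFn (baseY n m)) := by
      have := le_editDist_base (n := n) (m := m) h5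
      omega
    have hsum : (1 : ℝ≥0∞) ≤ (ε + ε) +
        ∑' ω, if ((c.1 : ℕ), (c.2 : ℕ)) ∈ tch ω then p ω else 0 := by
      calc (1 : ℝ≥0∞) = ∑' ω, p ω := p.tsum_coe.symm
        _ ≤ ∑' ω, (({ω | (A ω (baseX n) ⊥).run (baseX n) (baseY n m) ≠
              editDist (List.ofFn (baseX n)) (List.ofFn (baseY n m))}.indicator p ω +
            {ω | (A ω (baseX n) ⊥).run (baseX n) (hiddenY n m c) ≠
              editDist (List.ofFn (baseX n)) (List.ofFn (hiddenY n m c))}.indicator p ω) +
            (if ((c.1 : ℕ), (c.2 : ℕ)) ∈ tch ω then p ω else 0)) := by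
          refine ENNReal.tsum_le_tsum fun ω => ?_
          by_cases h1 : ((c.1 : ℕ), (c.2 : ℕ)) ∈ tch ω
          · rw [if_pos h1]; exact le_add_self
          · have hr := run_hidden h5 hc (t ω) h1
            by_cases h2 : (t ω).run (baseX n) (baseY n m) ≠
                editDist (List.ofFn (baseX n)) (List.ofFn (baseY n m))
            · have : {ω | (A ω (baseX n) ⊥).run (baseX n) (baseY n m) ≠
                  editDist (List.ofFn (baseX n)) (List.ofFn (baseY n m))}.indicator p ω = p ω :=
                Set.indicator_of_mem (by exact h2) _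
              rw [this]
              exact le_self_add.trans le_self_add
            · push Not at h2
              have h3 : (t ω).run (baseX n) (hiddenY n m c) ≠
                  editDist (List.ofFn (baseX n)) (List.ofFn (hiddenY n m c)) := by
                rw [hr, h2]; exact hne.symm
              have : {ω | (A ω (baseX n) ⊥).run (baseX n) (hiddenY n m c) ≠
                  editDist (List.ofFn (baseX n)) (List.ofFn (hiddenY n m c))}.indicator p ω = p ω :=
                Set.indicator_of_mem (by exact h3) _
              rw [this]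
              exact le_add_self.trans le_self_add
        _ = (∑' ω, {ω | (A ω (baseX n) ⊥).run (baseX n) (baseY n m) ≠
              editDist (List.ofFn (baseX n)) (List.ofFn (baseY n m))}.indicator p ω +
            ∑' ω, {ω | (A ω (baseX n) ⊥).run (baseX n) (hiddenY n m c) ≠
              editDist (List.ofFn (baseX n)) (List.ofFn (hiddenY n m c))}.indicator p ω) +
            ∑' ω, (if ((c.1 : ℕ), (c.2 : ℕ)) ∈ tch ω then p ω else 0) := by
          rw [ENNReal.tsum_add, ENNReal.tsum_add]
        _ ≤ (ε + ε) + ∑' ω, if ((c.1 : ℕ), (c.2 : ℕ)) ∈ tch ω then p ω else 0 := by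
          rw [PMF.toOuterMeasure_apply] at hb hc'
          gcongr
    rw [← two_mul] at hsum
    exact tsub_le_iff_left.mpr hsum
  calc (1 - 2 * ε) * (m : ℝ≥0∞) ^ 2
      ≤ (1 - 2 * ε) * ((cand n m).card : ℝ≥0∞) := by
        gcongr
        exact_mod_cast card_cand h5
    _ = ∑ _c ∈ cand n m, (1 - 2 * ε) := by
        rw [Finset.sum_const, nsmul_eq_mul, mul_comm]
    _ ≤ ∑ c ∈ cand n m, ∑' ω, (if ((c.1 : ℕ), (c.2 : ℕ)) ∈ tch ω then p ω else 0) :=
        Finset.sum_le_sum key
    _ = ∑' ω, ∑ c ∈ cand n m, (if ((c.1 : ℕ), (c.2 : ℕ)) ∈ tch ω then p ω else 0) := by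
        rw [Summable.tsum_finsetSum (fun _ _ => ENNReal.summable)]
    _ ≤ ∑' ω, p ω * ((t ω).queries (baseX n) (baseY n m) : ℝ≥0∞) := by
        refine ENNReal.tsum_le_tsum fun ω => ?_
        rw [← Finset.sum_filter, Finset.sum_const, nsmul_eq_mul, mul_comm]
        gcongr
        have h1 : ((cand n m).filter (fun c => ((c.1 : ℕ), (c.2 : ℕ)) ∈ tch ω)).card ≤
            (tch ω).length := by
          refine (Finset.card_le_card_of_injOn (t := (tch ω).toFinset)
            (fun c : Fin n × Fin n => ((c.1 : ℕ), (c.2 : ℕ))) ?_ ?_).trans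
            (List.toFinset_card_le _)
          · intro c hc
            simp only [Finset.coe_filter, Set.mem_ofPred_eq] at hc
            simpa using hc.2
          · intro c _ d _ hcd
            simp only [Prod.mk.injEq] at hcd
            ext
            · exact hcd.1
            · exact hcd.2
        exact h1.trans (touched_length _ _ _)

end Pool.Agent.Results.MP_716191_lc.PillarLowerBound
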